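import Mathlib

set_option autoImplicit false

namespace Pool.Agent.Results.MP_e032b8_co.SideAtLeastFive

open Finset Filter Topology

/-! ### the folded statistic -/

/-- folded coordinate -/
def fold {k : ℕ} (v : Fin k) : ℕ := min (v : ℕ) (k - 1 - v)

/-- sum of the folded coordinates -/
def phi {n k : ℕ} (x : Fin n → Fin k) : ℕ := ∑ i, fold (x i)

/-- the embedding of the grid into `ℝ ^ n` -/
def emb {n k : ℕ} (x : Fin n → Fin k) (i : Fin n) : ℝ := ((x i : ℕ) : ℝ)

/-- a line contains three points whose statistics form a nontrivial progression -/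
lemma line_structure {n k : ℕ} (hk : 5 ≤ k) (T : Finset (Fin n → Fin k)) (hT : T.card = k)
    (hc : Collinear ℝ (emb '' (T : Set (Fin n → Fin k)))) :
    ∃ x ∈ T, ∃ y ∈ T, ∃ z ∈ T, phi x + phi z = phi y + phi y ∧ phi x < phi y := by
  obtain ⟨p₀, v, hv⟩ := (collinear_iff_exists_forall_eq_smul_vadd _).1 hc
  have hr : ∀ x : Fin n → Fin k, ∃ r : ℝ, x ∈ T → ∀ i, ((x i : ℕ) : ℝ) = r * v i + p₀ i := by
    intro x
    by_cases hx : x ∈ T
    · obtain ⟨r, hr⟩ := hv (emb x) ⟨x, hx, rfl⟩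
      refine ⟨r, fun _ i => ?_⟩
      have := congrFun hr i
      simpa [emb] using this
    · exact ⟨0, fun h => absurd h hx⟩
  choose r hr using hr
  -- a moving coordinate
  obtain ⟨i0, hi0⟩ : ∃ i0, v i0 ≠ 0 := by
    by_contra hcon
    push Not at hcon
    have h1 : T.card ≤ 1 := by
      refine Finset.card_le_one.2 fun x hx y hy => ?_
      funext i
      have h2 := hr x hx i
      have h3 := hr y hy i
      rw [hcon i, mul_zero, zero_add] at h2 h3
      have h4 : ((x i : ℕ) : ℝ) = ((y i : ℕ) : ℝ) := by rw [h2, h3]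
      exact Fin.ext (by exact_mod_cast h4)
    omega
  have hinj : Set.InjOn (fun x : Fin n → Fin k => x i0) (T : Set (Fin n → Fin k)) := by
    intro x hx y hy hxy
    have hxy' : x i0 = y i0 := hxy
    have h2 := hr x hx i0
    have h3 := hr y hy i0
    rw [hxy', h3] at h2
    have h4 : r y = r x := by
      have : r y * v i0 = r x * v i0 := by linarith
      exact mul_right_cancel₀ hi0 this
    funext i
    have h5 := hr x hx i
    have h6 := hr y hy i
    have h7 : ((x i : ℕ) : ℝ) = ((y i : ℕ) : ℝ) := by rw [h5, h6, h4]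
    exact Fin.ext (by exact_mod_cast h7)
  have himg : T.image (fun x : Fin n → Fin k => x i0) = univ := by
    apply Finset.eq_univ_of_card
    rw [Finset.card_image_of_injOn hinj, hT, Fintype.card_fin]
  have hY : ∀ j : Fin k, ∃ y ∈ T, y i0 = j := by
    intro j
    have : j ∈ T.image (fun x : Fin n → Fin k => x i0) := by rw [himg]; exact mem_univ j
    obtain ⟨y, hy, e⟩ := Finset.mem_image.1 this
    exact ⟨y, hy, e⟩
  choose Y hYT hYi using hY
  let j0 : Fin k := ⟨0, by omega⟩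
  let j1 : Fin k := ⟨1, by omega⟩
  let j2 : Fin k := ⟨2, by omega⟩
  let jl : Fin k := ⟨k - 1, by omega⟩
  -- affine dependence
  have haff : ∀ (j : Fin k) (i : Fin n), ((Y j i : ℕ) : ℝ) =
      ((Y j0 i : ℕ) : ℝ) + ((j : ℕ) : ℝ) * (((Y j1 i : ℕ) : ℝ) - ((Y j0 i : ℕ) : ℝ)) := by
    intro j i
    have a0 := hr _ (hYT j0) i
    have a1 := hr _ (hYT j1) i
    have aj := hr _ (hYT j) i
    have b0 := hr _ (hYT j0) i0
    have b1 := hr _ (hYT j1) i0
    have bj := hr _ (hYT j) i0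
    rw [hYi] at b0 b1 bj
    have e0 : ((j0 : ℕ) : ℝ) = 0 := by simp [j0]
    have e1 : ((j1 : ℕ) : ℝ) = 1 := by simp [j1]
    rw [e0] at b0
    rw [e1] at b1
    have c1 : (r (Y j1) - r (Y j0)) * v i0 = 1 := by linarith
    have cj : (r (Y j) - r (Y j0)) * v i0 = ((j : ℕ) : ℝ) := by linarith
    have d : r (Y j) - r (Y j0) = ((j : ℕ) : ℝ) * (r (Y j1) - r (Y j0)) := by
      have : (r (Y j) - r (Y j0)) * v i0 = (((j : ℕ) : ℝ) * (r (Y j1) - r (Y j0))) * v i0 := by
        rw [mul_assoc, c1, cj, mul_one]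
      exact mul_right_cancel₀ hi0 this
    rw [a0, a1, aj]
    linear_combination (v i) * d
  have haff' : ∀ (j : Fin k) (i : Fin n), ((Y j i : ℕ) : ℤ) =
      ((Y j0 i : ℕ) : ℤ) + ((j : ℕ) : ℤ) * (((Y j1 i : ℕ) : ℤ) - ((Y j0 i : ℕ) : ℤ)) := by
    intro j i
    have := haff j i
    exact_mod_cast this
  have hcases : ∀ i : Fin n, (fold (Y j0 i) + fold (Y j2 i) = fold (Y j1 i) + fold (Y j1 i) ∧
      fold (Y j0 i) ≤ fold (Y j1 i)) := by
    intro i
    have h2 := haff' j2 i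
    have hl := haff' jl i
    have e2 : ((j2 : ℕ) : ℤ) = 2 := by simp [j2]
    have el : ((jl : ℕ) : ℤ) = (k : ℤ) - 1 := by simp only [jl]; omega
    rw [e2] at h2
    rw [el] at hl
    have b0 := (Y j0 i).isLt
    have b1 := (Y j1 i).isLt
    have b2 := (Y j2 i).isLt
    have bl := (Y jl i).isLt
    set D : ℤ := ((Y j1 i : ℕ) : ℤ) - ((Y j0 i : ℕ) : ℤ) with hD
    have hD1 : D ≤ 1 := by
      by_contra h
      push Not at h
      nlinarith
    have hD2 : -1 ≤ D := by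
      by_contra h
      push Not at h
      nlinarith
    unfold fold
    rcases (by omega : D = 0 ∨ D = 1 ∨ D = -1) with h | h | h
    · rw [h] at h2 hl
      omega
    · rw [h] at h2 hl
      omega
    · rw [h] at h2 hl
      omega
  refine ⟨Y j0, hYT _, Y j1, hYT _, Y j2, hYT _, ?_, ?_⟩
  · unfold phi
    rw [← sum_add_distrib, ← sum_add_distrib]
    exact sum_congr rfl fun i _ => (hcases i).1
  · unfold phi
    refine sum_lt_sum (fun i _ => (hcases i).2) ⟨i0, mem_univ _, ?_⟩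
    rw [hYi, hYi]
    simp only [fold, j0, j1]
    omega

/-! ### the second moment -/

lemma sum_cons {n k : ℕ} (F : (Fin (n + 1) → Fin k) → ℤ) :
    ∑ x, F x = ∑ v : Fin k, ∑ y : Fin n → Fin k, F (Fin.cons v y) := by
  rw [← Fintype.sum_prod_type', ← (Fin.consEquiv (fun _ : Fin (n + 1) => Fin k)).sum_comp]
  rfl

lemma moment {k : ℕ} (h : Fin k → ℤ) (h0 : ∑ v, h v = 0) (n : ℕ) :
    ∑ x : Fin n → Fin k, ∑ i, h (x i) = 0 ∧
    (k : ℤ) * ∑ x : Fin n → Fin k, (∑ i, h (x i)) ^ 2 = n * k ^ n * ∑ v, h v ^ 2 := by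
  induction n with
  | zero => simp
  | succ n ih =>
    obtain ⟨ih1, ih2⟩ := ih
    have hcard : ∑ y : Fin n → Fin k, (1 : ℤ) = (k : ℤ) ^ n := by
      simp
    constructor
    · rw [sum_cons]
      have : ∀ v : Fin k, ∑ y : Fin n → Fin k, ∑ i, h ((Fin.cons v y : Fin (n + 1) → Fin k) i) =
          (k : ℤ) ^ n * h v := by
        intro v
        simp only [Fin.sum_univ_succ, Fin.cons_zero, Fin.cons_succ]
        rw [sum_add_distrib, ih1, add_zero, ← hcard, sum_mul]
        simp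
      rw [sum_congr rfl fun v _ => this v, ← mul_sum, h0, mul_zero]
    · rw [sum_cons]
      have : ∀ v : Fin k, ∑ y : Fin n → Fin k,
          (∑ i, h ((Fin.cons v y : Fin (n + 1) → Fin k) i)) ^ 2 =
          (k : ℤ) ^ n * h v ^ 2 + ∑ y : Fin n → Fin k, (∑ i, h (y i)) ^ 2 := by
        intro v
        simp only [Fin.sum_univ_succ, Fin.cons_zero, Fin.cons_succ]
        have e : ∀ y : Fin n → Fin k, (h v + ∑ i, h (y i)) ^ 2 =
            h v ^ 2 * 1 + (2 * h v) * (∑ i, h (y i)) + (∑ i, h (y i)) ^ 2 := by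
          intro y; ring
        rw [sum_congr rfl fun y _ => e y, sum_add_distrib, sum_add_distrib, ← mul_sum, ← mul_sum,
          ih1, hcard]
        ring
      rw [sum_congr rfl fun v _ => this v, sum_add_distrib, ← mul_sum, sum_const, card_univ,
        Fintype.card_fin, nsmul_eq_mul]
      have h3 : (k : ℤ) * ((k : ℤ) ^ n * ∑ v, h v ^ 2 +
          k * ∑ y : Fin n → Fin k, (∑ i, h (y i)) ^ 2) =
          (k : ℤ) ^ (n + 1) * ∑ v, h v ^ 2 + k * (k * ∑ y : Fin n → Fin k, (∑ i, h (y i)) ^ 2) := by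
        ring
      rw [h3, ih2]
      push_cast
      ring

/-- centered statistic -/
def cen {k : ℕ} (v : Fin k) : ℤ := k * (fold v : ℤ) - ∑ w : Fin k, (fold w : ℤ)

lemma sum_cen (k : ℕ) : ∑ v : Fin k, cen v = 0 := by
  unfold cen
  rw [sum_sub_distrib, ← mul_sum, sum_const, card_univ, Fintype.card_fin, nsmul_eq_mul, sub_self]

lemma cen_bound {k : ℕ} (v : Fin k) : cen v ^ 2 ≤ (k : ℤ) ^ 4 := by
  have h1 : ∀ w : Fin k, (0 : ℤ) ≤ fold w ∧ (fold w : ℤ) ≤ k := by
    intro w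
    refine ⟨by positivity, ?_⟩
    have := w.isLt
    have h2 : fold w ≤ k := (min_le_left _ _).trans this.le
    exact_mod_cast h2
  have h2 : (0 : ℤ) ≤ ∑ w : Fin k, (fold w : ℤ) := sum_nonneg fun w _ => (h1 w).1
  have h3 : ∑ w : Fin k, (fold w : ℤ) ≤ k * k := by
    calc ∑ w : Fin k, (fold w : ℤ) ≤ ∑ w : Fin k, (k : ℤ) := sum_le_sum fun w _ => (h1 w).2
      _ = k * k := by simp
  have h4 : (k : ℤ) * fold v ≤ k * k := mul_le_mul_of_nonneg_left (h1 v).2 (by positivity)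
  have h5 : (0 : ℤ) ≤ k * fold v := mul_nonneg (by positivity) (h1 v).1
  have h6 : |cen v| ≤ |(k : ℤ) * k| := by
    rw [abs_of_nonneg (by positivity : (0 : ℤ) ≤ (k : ℤ) * k)]
    unfold cen
    rw [abs_le]
    constructor <;> linarith
  calc cen v ^ 2 ≤ ((k : ℤ) * k) ^ 2 := sq_le_sq.2 h6
    _ = (k : ℤ) ^ 4 := by ring

lemma cen_phi {n k : ℕ} (x : Fin n → Fin k) :
    ∑ i, cen (x i) = k * (phi x : ℤ) - n * ∑ w : Fin k, (fold w : ℤ) := by
  unfold cen phi
  rw [sum_sub_distrib, ← mul_sum, sum_const, card_univ, Fintype.card_fin, nsmul_eq_mul]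
  push_cast
  ring

/-- Chebyshev -/
lemma window {n k : ℕ} (hk : 1 ≤ k) (hn : 1 ≤ n) : ∃ b : ℤ, (3 : ℝ) / 4 * (k : ℝ) ^ n ≤
    ((univ : Finset (Fin n → Fin k)).filter fun x =>
      b ≤ (phi x : ℤ) ∧ (phi x : ℤ) < b + (4 * k * (Nat.sqrt n + 1) : ℕ)).card := by
  set s := Nat.sqrt n with hs
  set G : ℤ := ∑ w : Fin k, (fold w : ℤ) with hG
  set R : ℤ := 2 * k * (s + 1) with hR
  set a : ℤ := (n * G) / k with ha
  refine ⟨a - R + 1, ?_⟩
  set W := (univ : Finset (Fin n → Fin k)).filter fun x =>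
      a - R + 1 ≤ (phi x : ℤ) ∧ (phi x : ℤ) < a - R + 1 + (4 * k * (s + 1) : ℕ) with hW
  set B := (univ : Finset (Fin n → Fin k)).filter fun x =>
      4 * (k : ℤ) ^ 4 * n ≤ (∑ i, cen (x i)) ^ 2 with hB
  have hkpos : (0 : ℤ) < k := by exact_mod_cast hk
  have hn' : (n : ℤ) < (s + 1) ^ 2 := by
    have := Nat.lt_succ_sqrt' n
    exact_mod_cast this
  -- complement of W is in B
  have hsub : ∀ x : Fin n → Fin k, x ∉ W → x ∈ B := by
    intro x hx
    by_contra hxB
    simp only [hB, mem_filter, mem_univ, true_and, not_le] at hxB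
    apply hx
    simp only [hW, mem_filter, mem_univ, true_and]
    rw [cen_phi, ← hG] at hxB
    have h1 : (k * (phi x : ℤ) - n * G) ^ 2 < (2 * (k : ℤ) ^ 2 * (s + 1)) ^ 2 := by
      calc (k * (phi x : ℤ) - n * G) ^ 2 < 4 * (k : ℤ) ^ 4 * n := hxB
        _ ≤ 4 * (k : ℤ) ^ 4 * (s + 1) ^ 2 := by gcongr
        _ = _ := by ring
    have h2 := abs_lt_of_sq_lt_sq h1 (by positivity)
    rw [abs_lt] at h2
    have h3 : k * a ≤ n * G := Int.mul_ediv_self_le hkpos.ne'
    have h4 : n * G < k * a + k := by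
      have := Int.lt_mul_ediv_self_add (x := n * G) hkpos
      linarith
    have h5 : k * (a - R) < k * (phi x : ℤ) := by
      calc k * (a - R) = k * a - 2 * (k : ℤ) ^ 2 * (s + 1) := by rw [hR]; ring
        _ < _ := by linarith [h2.1]
    have h6 : k * (phi x : ℤ) < k * (a + R + 1) := by
      calc k * (phi x : ℤ) < n * G + 2 * (k : ℤ) ^ 2 * (s + 1) := by linarith [h2.2]
        _ < k * a + k + 2 * (k : ℤ) ^ 2 * (s + 1) := by linarith
        _ = _ := by rw [hR]; ring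
    have h7 := lt_of_mul_lt_mul_left h5 hkpos.le
    have h8 := lt_of_mul_lt_mul_left h6 hkpos.le
    have h9 : ((4 * k * (s + 1) : ℕ) : ℤ) = 2 * R := by rw [hR]; push_cast; ring
    rw [h9]
    constructor <;> linarith
  -- size of B
  have hBc : (B.card : ℤ) * 4 ≤ (k : ℤ) ^ n := by
    have h1 := (moment (fun v : Fin k => cen v) (sum_cen k) n).2
    have h2 : (B.card : ℤ) * (4 * (k : ℤ) ^ 4 * n) ≤
        ∑ x : Fin n → Fin k, (∑ i, cen (x i)) ^ 2 := by
      calc (B.card : ℤ) * (4 * (k : ℤ) ^ 4 * n) = ∑ x ∈ B, (4 * (k : ℤ) ^ 4 * n) := by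
            rw [sum_const, nsmul_eq_mul]
        _ ≤ ∑ x ∈ B, (∑ i, cen (x i)) ^ 2 := by
            refine sum_le_sum fun x hx => ?_
            simp only [hB, mem_filter, mem_univ, true_and] at hx
            exact hx
        _ ≤ _ := sum_le_sum_of_subset_of_nonneg (subset_univ _) fun x _ _ => sq_nonneg _
    have h3 : ∑ v : Fin k, cen v ^ 2 ≤ k * (k : ℤ) ^ 4 := by
      calc ∑ v : Fin k, cen v ^ 2 ≤ ∑ v : Fin k, (k : ℤ) ^ 4 := sum_le_sum fun v _ => cen_bound v
        _ = k * (k : ℤ) ^ 4 := by simp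
    have hn0 : (0 : ℤ) < n := by exact_mod_cast hn
    have h4 : (k : ℤ) * ((B.card : ℤ) * (4 * (k : ℤ) ^ 4 * n)) ≤
        n * k ^ n * (k * (k : ℤ) ^ 4) := by
      calc (k : ℤ) * ((B.card : ℤ) * (4 * (k : ℤ) ^ 4 * n))
          ≤ k * ∑ x : Fin n → Fin k, (∑ i, cen (x i)) ^ 2 := by gcongr
        _ = n * k ^ n * ∑ v : Fin k, cen v ^ 2 := h1
        _ ≤ _ := by gcongr
    have h5 : ((B.card : ℤ) * 4) * (k * (k : ℤ) ^ 4 * n) ≤ (k : ℤ) ^ n * (k * (k : ℤ) ^ 4 * n) := by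
      linarith
    exact le_of_mul_le_mul_right h5 (by positivity)
  have htot : (k : ℤ) ^ n ≤ W.card + B.card := by
    have h1 : (univ : Finset (Fin n → Fin k)) ⊆ W ∪ B := by
      intro x _
      rw [mem_union]
      by_cases h : x ∈ W
      · exact Or.inl h
      · exact Or.inr (hsub x h)
    have h2 := (card_le_card h1).trans (card_union_le _ _)
    rw [card_univ, Fintype.card_fun, Fintype.card_fin, Fintype.card_fin] at h2
    exact_mod_cast h2
  have hBr : (B.card : ℝ) * 4 ≤ (k : ℝ) ^ n := by exact_mod_cast hBc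
  have htr : (k : ℝ) ^ n ≤ W.card + B.card := by exact_mod_cast htot
  linarith

/-! ### translates of a progression-free set -/

lemma translate {n k m : ℕ} (hm : 0 < m) (A : Finset ℕ) (hA : A ⊆ range m)
    (W : Finset (Fin n → Fin k)) (b : ℤ) (hW : ∀ x ∈ W, b ≤ (phi x : ℤ) ∧ (phi x : ℤ) < b + m) :
    ∃ t : ℤ, W.card * A.card ≤
      2 * m * (W.filter fun x => ∃ α ∈ A, (phi x : ℤ) = t + (α : ℕ)).card := by
  by_contra hcon
  push Not at hcon
  have h1 : ∑ t ∈ Finset.Ico (b - m) (b + m),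
      (W.filter fun x => ∃ α ∈ A, (phi x : ℤ) = t + (α : ℕ)).card = W.card * A.card := by
    have h2 : ∀ t, (W.filter fun x => ∃ α ∈ A, (phi x : ℤ) = t + (α : ℕ)).card =
        ∑ x ∈ W, if (∃ α ∈ A, (phi x : ℤ) = t + (α : ℕ)) then 1 else 0 := fun t => by
      rw [card_filter]
    simp only [h2]
    rw [sum_comm]
    have h3 : ∀ x ∈ W, ∑ t ∈ Finset.Ico (b - m) (b + m),
        (if (∃ α ∈ A, (phi x : ℤ) = t + (α : ℕ)) then 1 else 0) = A.card := by
      intro x hx
      rw [← card_filter]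
      symm
      refine card_bij (fun α _ => (phi x : ℤ) - (α : ℕ)) (fun α hα => ?_)
        (fun α _ β _ e => ?_) (fun t ht => ?_)
      · have h4 := mem_range.1 (hA hα)
        have h5 := hW x hx
        rw [mem_filter, Finset.mem_Ico]
        exact ⟨⟨by omega, by omega⟩, α, hα, by ring⟩
      · have : (α : ℤ) = β := by linarith
        exact_mod_cast this
      · rw [mem_filter] at ht
        obtain ⟨_, α, hα, e⟩ := ht
        exact ⟨α, hα, by rw [e]; ring⟩
    rw [sum_congr rfl h3, sum_const, smul_eq_mul]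
  have hne : (Finset.Ico (b - m) (b + m)).Nonempty := by
    rw [Finset.nonempty_Ico]
    omega
  have h2 : ∑ t ∈ Finset.Ico (b - m) (b + m),
      2 * m * (W.filter fun x => ∃ α ∈ A, (phi x : ℤ) = t + (α : ℕ)).card <
      ∑ t ∈ Finset.Ico (b - m) (b + m), W.card * A.card :=
    sum_lt_sum_of_nonempty hne fun t _ => hcon t
  rw [← mul_sum, h1, sum_const, Int.card_Ico, smul_eq_mul] at h2
  have h3 : (b + m - (b - m)).toNat = 2 * m := by omega
  rw [h3] at h2
  exact lt_irrefl _ h2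

lemma line_free {n k : ℕ} (hk : 5 ≤ k) {A : Finset ℕ} (hA : ThreeAPFree (A : Set ℕ)) (t : ℤ)
    (W : Finset (Fin n → Fin k)) (T : Finset (Fin n → Fin k))
    (hT : T ⊆ W.filter fun x => ∃ α ∈ A, (phi x : ℤ) = t + (α : ℕ)) (hc : T.card = k) :
    ¬ Collinear ℝ (emb '' (T : Set (Fin n → Fin k))) := by
  intro hcol
  obtain ⟨x, hx, y, hy, z, hz, h1, h2⟩ := line_structure hk T hc hcol
  obtain ⟨α, hα, ea⟩ := (mem_filter.1 (hT hx)).2
  obtain ⟨β, hβ, eb⟩ := (mem_filter.1 (hT hy)).2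
  obtain ⟨γ, hγ, ec⟩ := (mem_filter.1 (hT hz)).2
  have h3 : α + γ = β + β := by
    have : (phi x : ℤ) + phi z = phi y + phi y := by exact_mod_cast h1
    omega
  have h4 := hA hα hβ hγ h3
  subst h4
  omega

/-- quantitative form -/
theorem quantitative {k : ℕ} (hk : 5 ≤ k) : ∃ c : ℝ, 0 < c ∧ ∀ n : ℕ, 1 ≤ n →
    ∃ S : Finset (Fin n → Fin k),
      c * (k : ℝ) ^ n * Real.exp (-(3 * Real.sqrt (Real.log n))) ≤ (S.card : ℝ) ∧
      ∀ T : Finset (Fin n → Fin k), T ⊆ S → T.card = k →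
        ¬ Collinear ℝ (emb '' (T : Set (Fin n → Fin k))) := by
  refine ⟨3 / 8 * Real.exp (-(4 * Real.sqrt (Real.log (8 * k)))), by positivity, fun n hn => ?_⟩
  obtain ⟨b, hb⟩ := window (n := n) (k := k) (by omega) hn
  set m : ℕ := 4 * k * (Nat.sqrt n + 1) with hm
  have hm0 : 0 < m := by positivity
  obtain ⟨A, hA1, hA2, hA3⟩ := rothNumberNat_spec m
  set W := (univ : Finset (Fin n → Fin k)).filter fun x =>
      b ≤ (phi x : ℤ) ∧ (phi x : ℤ) < b + (m : ℕ) with hW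
  obtain ⟨t, ht⟩ := translate hm0 A hA1 W b (fun x hx => (mem_filter.1 hx).2)
  refine ⟨W.filter fun x => ∃ α ∈ A, (phi x : ℤ) = t + (α : ℕ), ?_,
    fun T hT hc => line_free hk hA3 t W T hT hc⟩
  set S := W.filter fun x => ∃ α ∈ A, (phi x : ℤ) = t + (α : ℕ) with hS
  have hroth := Behrend.roth_lower_bound (N := m)
  rw [← hA2] at hroth
  have hmr : (0 : ℝ) < m := by exact_mod_cast hm0
  have hkr : (0 : ℝ) < k := by positivity
  have ht' : (W.card : ℝ) * A.card ≤ 2 * m * S.card := by exact_mod_cast ht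
  have h1 : (3 / 4 * (k : ℝ) ^ n) * (m * Real.exp (-4 * Real.sqrt (Real.log m))) ≤
      2 * m * S.card :=
    le_trans (mul_le_mul hb hroth (by positivity) (by positivity)) ht'
  have h2 : 3 / 8 * (k : ℝ) ^ n * Real.exp (-4 * Real.sqrt (Real.log m)) ≤ S.card := by
    have : (2 * m) * (3 / 8 * (k : ℝ) ^ n * Real.exp (-4 * Real.sqrt (Real.log m))) ≤
        (2 * m) * (S.card : ℝ) := by
      calc (2 * m) * (3 / 8 * (k : ℝ) ^ n * Real.exp (-4 * Real.sqrt (Real.log m)))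
          = (3 / 4 * (k : ℝ) ^ n) * (m * Real.exp (-4 * Real.sqrt (Real.log m))) := by ring
        _ ≤ _ := h1
    exact le_of_mul_le_mul_left this (by positivity)
  refine le_trans ?_ h2
  -- comparison of the logarithms
  have hn0 : (0 : ℝ) < n := by exact_mod_cast hn
  have hn1 : (1 : ℝ) ≤ n := by exact_mod_cast hn
  have hsq : ((Nat.sqrt n : ℕ) : ℝ) ≤ Real.sqrt n := Real.nat_sqrt_le_real_sqrt
  have hsn : (1 : ℝ) ≤ Real.sqrt n := by
    rw [Real.one_le_sqrt]
    exact hn1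
  have hmle : (m : ℝ) ≤ 8 * k * Real.sqrt n := by
    rw [hm]
    push_cast
    calc 4 * (k : ℝ) * ((Nat.sqrt n : ℝ) + 1) ≤ 4 * k * (Real.sqrt n + Real.sqrt n) := by
          gcongr
      _ = 8 * k * Real.sqrt n := by ring
  have hlog : Real.log m ≤ Real.log (8 * k) + Real.log n / 2 := by
    calc Real.log m ≤ Real.log (8 * k * Real.sqrt n) := Real.log_le_log hmr hmle
      _ = Real.log (8 * k) + Real.log n / 2 := by
        rw [Real.log_mul (by positivity) (by positivity), Real.log_sqrt hn0.le]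
  have hL0 : 0 ≤ Real.log n := Real.log_nonneg hn1
  have h8k : 0 ≤ Real.log (8 * k) := by
    apply Real.log_nonneg
    have : (5 : ℝ) ≤ k := by exact_mod_cast hk
    linarith
  have hsqrt : Real.sqrt (Real.log m) ≤
      Real.sqrt (Real.log (8 * k)) + 3 / 4 * Real.sqrt (Real.log n) := by
    rw [Real.sqrt_le_left (by positivity)]
    have e1 := Real.sq_sqrt h8k
    have e2 := Real.sq_sqrt hL0
    have e3 : 0 ≤ Real.sqrt (Real.log (8 * k)) * Real.sqrt (Real.log n) := by positivity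
    nlinarith
  have hexp : Real.exp (-(4 * Real.sqrt (Real.log (8 * k)))) *
      Real.exp (-(3 * Real.sqrt (Real.log n))) ≤ Real.exp (-4 * Real.sqrt (Real.log m)) := by
    rw [← Real.exp_add]
    apply Real.exp_le_exp.2
    linarith
  calc 3 / 8 * Real.exp (-(4 * Real.sqrt (Real.log (8 * k)))) * (k : ℝ) ^ n *
        Real.exp (-(3 * Real.sqrt (Real.log n)))
      = 3 / 8 * (k : ℝ) ^ n * (Real.exp (-(4 * Real.sqrt (Real.log (8 * k)))) *
        Real.exp (-(3 * Real.sqrt (Real.log n)))) := by ring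
    _ ≤ _ := by gcongr

lemma eventually_large (c c' : ℝ) (hc : 0 < c) (hc' : 0 < c') : ∃ N : ℕ, 1 ≤ N ∧ ∀ n : ℕ, N ≤ n →
    c / Real.sqrt n ≤ c' * Real.exp (-(3 * Real.sqrt (Real.log n))) := by
  -- `u ^ 2 / 2 - 3 u → ∞` with `u = sqrt (log n)`
  have h1 : Tendsto (fun n : ℕ => Real.sqrt (Real.log n)) atTop atTop :=
    Real.tendsto_sqrt_atTop.comp (Real.tendsto_log_atTop.comp tendsto_natCast_atTop_atTop)
  have h2 : ∀ᶠ n : ℕ in atTop, max 8 (Real.log (c / c')) ≤ Real.sqrt (Real.log n) :=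
    h1.eventually_ge_atTop _
  obtain ⟨N, hN⟩ := eventually_atTop.1 h2
  refine ⟨max N 1, le_max_right _ _, fun n hn => ?_⟩
  have h3 := hN n ((le_max_left _ _).trans hn)
  have hn1 : 1 ≤ n := (le_max_right _ _).trans hn
  have hn0 : (0 : ℝ) < n := by exact_mod_cast hn1
  have hL0 : 0 ≤ Real.log n := Real.log_nonneg (by exact_mod_cast hn1)
  set u := Real.sqrt (Real.log n) with hu
  have hu2 : u ^ 2 = Real.log n := Real.sq_sqrt hL0
  have h8 : 8 ≤ u := (le_max_left _ _).trans h3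
  have hl : Real.log (c / c') ≤ u := (le_max_right _ _).trans h3
  have hsq : Real.sqrt n = Real.exp (u ^ 2 / 2) := by
    rw [hu2, Real.exp_half, Real.exp_log hn0]
  have h4 : c / c' ≤ Real.exp (u ^ 2 / 2 - 3 * u) := by
    rw [← Real.log_le_iff_le_exp (by positivity)]
    nlinarith
  rw [hsq, div_le_iff₀ (Real.exp_pos _)]
  rw [div_le_iff₀ hc'] at h4
  calc c ≤ Real.exp (u ^ 2 / 2 - 3 * u) * c' := h4
    _ = c' * Real.exp (-(3 * u)) * Real.exp (u ^ 2 / 2) := by
      rw [mul_assoc, ← Real.exp_add, mul_comm]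
      congr 2
      ring

/-- For every `k ≥ 5` the question has a positive answer: for every `c > 0` and all large `n` there is
a line-free subset of `{0, …, k - 1} ^ n` with at least `c * k ^ n / √ n` points; in fact there is one
with at least `c_k * k ^ n * exp (- 3 * √ (log n))` points, for every `n ≥ 1`. -/
theorem result :
    (∀ k : ℕ, 5 ≤ k → ∀ c : ℝ, 0 < c → ∃ N : ℕ, ∀ n : ℕ, N ≤ n →
      ∃ S : Finset (Fin n → Fin k),
        c * (k : ℝ) ^ n / Real.sqrt (n : ℝ) ≤ (S.card : ℝ) ∧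
        ∀ T : Finset (Fin n → Fin k), T ⊆ S → T.card = k →
          ¬ Collinear ℝ ((fun (x : Fin n → Fin k) (i : Fin n) => (((x i : ℕ)) : ℝ)) ''
              (T : Set (Fin n → Fin k)))) ∧
    (∀ k : ℕ, 5 ≤ k → ∃ c : ℝ, 0 < c ∧ ∀ n : ℕ, 1 ≤ n →
      ∃ S : Finset (Fin n → Fin k),
        c * (k : ℝ) ^ n * Real.exp (-(3 * Real.sqrt (Real.log n))) ≤ (S.card : ℝ) ∧
        ∀ T : Finset (Fin n → Fin k), T ⊆ S → T.card = k →
          ¬ Collinear ℝ ((fun (x : Fin n → Fin k) (i : Fin n) => (((x i : ℕ)) : ℝ)) ''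
              (T : Set (Fin n → Fin k)))) := by
  refine ⟨fun k hk c hc => ?_, fun k hk => quantitative hk⟩
  obtain ⟨c', hc', h⟩ := quantitative hk
  obtain ⟨N, hN1, hN⟩ := eventually_large c c' hc hc'
  refine ⟨N, fun n hn => ?_⟩
  obtain ⟨S, hS1, hS2⟩ := h n (hN1.trans hn)
  refine ⟨S, le_trans ?_ hS1, hS2⟩
  have h1 := hN n hn
  calc c * (k : ℝ) ^ n / Real.sqrt n = (k : ℝ) ^ n * (c / Real.sqrt n) := by ring
    _ ≤ (k : ℝ) ^ n * (c' * Real.exp (-(3 * Real.sqrt (Real.log n)))) := by gcongr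
    _ = _ := by ring

end Pool.Agent.Results.MP_e032b8_co.SideAtLeastFive
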